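import Pool.Agent.H835.AV.HartPlus

set_option autoImplicit false

/-!
# Hartshorne's conjecture for sums of forms

Let `K` be an algebraically closed field (for instance `ℂ`), and let `X` in `P^(N-1)` be a smooth
hypersurface whose equation `F` is a sum of forms of degree `n ≥ 2` in `s` disjoint nonempty blocks of
variables (for `s = N` these are the Fermat hypersurfaces). Here `n = m` in characteristic zero, and
`n = m p^a` with `m` prime to `p` in characteristic `p`. Let `N - 2 = i + j` be the dimension of `X`,
and let `1 ≤ j < (N - 2) / 2`, that is, `1 ≤ j < i`, be a codimension in the range of Hartshorne's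
conjecture `A^j(X) = ℚ h^j`. Here `h^j` is the class of a linear section of dimension `i`; the
statements below are proved for every linear section.

1. If `m j < s`, then `A^j(X) = ℚ h^j`. So Hartshorne's conjecture holds for `X` and all
   `j < s / m`.

The group `(ℤ/m)^s` acts on `X`: the element `g` multiplies the variables in the block `k` by
`ζ ^ g k`, where `ζ` is a primitive `m`-th root of unity. So its group ring over `ℚ` acts on the
Chow groups of `X`. The characters are the `x` in `(ℤ/m)^s`. We say that `x` splits if the set of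
blocks has a partition into `j + 1` nonempty parts such that the sum of the `x k` over each part is
`0`.

2. Let `j < s`. If `z` is an element of the rational group ring which is killed by all `x` with
   `∑ x k = 0` which do not split, then `z` maps `A^j(X)` to `ℚ h^j`.
3. Let `j < s`. If `H` is a subgroup such that all `x` with `∑ x k = 0` which are trivial on `H`
   split, then all `H`-invariants in `A^j(X)` are in `ℚ h^j`. (For `H = (ℤ/m)^s` only `x = 0` is
   trivial on `H`, and the condition is true.)

In (2) and (3) all degrees are allowed, so `X` can be of general type.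
-/

universe u

namespace Pool.Agent.Results.MP_4be043_ag.SumsOfForms

open MvPolynomial Pool.Agent.H835.AV
open Pool.Agent.W5h86.HC (lform)

section defs

variable {K : Type u} [Field K] {N s m n i : ℕ}

/-- The hypersurface `F = 0` in the projective space is smooth (for algebraically closed `K`). -/
def Smooth (F : MvPolynomial (Fin N) K) : Prop :=
  ∀ x : Fin N → K, x ≠ 0 → aeval x F = 0 → ∃ l, aeval x (pderiv l F) ≠ 0

/-- The action of `(ℤ/m)^s` on the Chow groups of the hypersurface `F = 0`, where `F` is a sum of
forms of degree `n` in the blocks of variables given by `β` (the variable `X l` belongs to the block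
`β l`): `g` acts by the automorphism which multiplies the coordinates in the block `k` by
`ζ ^ g k`. -/
noncomputable def act {ζ : K} (hζ : IsPrimitiveRoot ζ m) [NeZero m] (hmn : m ∣ n)
    {β : Fin N → Fin s} {F : MvPolynomial (Fin N) K} (hF : SF β n F) (i : ℕ)
    (g : Fin s → ZMod m) : CH (Ideal.span {F}) i →ₗ[ℚ] CH (Ideal.span {F}) i :=
  blockAct hζ.pow_eq_one (span_stable hζ.pow_eq_one hmn hF) i g

/-- There is a partition of the set of blocks into `c` nonempty parts such that the sum of the
`x k` over each part is `0`. -/
def Splits (x : Fin s → ZMod m) (c : ℕ) : Prop :=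
  ∃ π : Fin s → Fin c, Function.Surjective π ∧ ∀ l, ∑ k with π k = l, x k = 0

/-- The linear forms with the coefficients `c 1, …, c r` cut out a linear section of dimension `i` of
the hypersurface `F = 0`: they are linearly independent, `r = N - i - 2`, and `F` does not vanish on
the linear subspace which they define. -/
def IsSection (F : MvPolynomial (Fin N) K) (i : ℕ) {r : ℕ} (c : Fin r → Fin N → K) : Prop :=
  LinearIndependent K c ∧ i + 2 + r = N ∧ F ∉ Ideal.span (Set.range fun l => lform (c l))

/-- There are linear sections of dimension `i`, and all elements of `A` are multiples of the class of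
every such section. -/
def SectionMultiples (F : MvPolynomial (Fin N) K) (i : ℕ) (A : Set (CH (Ideal.span {F}) i)) :
    Prop :=
  (∃ (r : ℕ) (c : Fin r → Fin N → K), IsSection F i c) ∧
  ∀ (r : ℕ) (c : Fin r → Fin N → K), IsSection F i c → ∀ α ∈ A, ∃ q : ℚ,
    α = q • (ratEq (Ideal.span {F}) i).mkQ (cyc (Ideal.span {F}) i
      (Ideal.span {F} ⊔ Ideal.span (Set.range fun l => lform (c l))))

end defs

/-- If there are enough blocks, all `x` with sum `0` split. -/
lemma splits_of_card {m s j : ℕ} [NeZero m] (hs : m * j < s) {x : Fin s → ZMod m}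
    (hx : ∑ k, x k = 0) : Splits x (j + 1) := by
  obtain ⟨π, h1, h2⟩ := exists_merge_of_card (t := j) (by rwa [Fintype.card_fin]) hx
  let e : {k // k ∈ Finset.univ.image π} ≃ Fin (j + 1) := Fintype.equivFinOfCardEq (by
    rw [Fintype.card_coe, h1])
  let π' : Fin s → Fin (j + 1) := fun k => e ⟨π k, Finset.mem_image_of_mem π (Finset.mem_univ k)⟩
  refine ⟨π', ?_, ?_⟩
  · intro l
    obtain ⟨k, -, hk⟩ := Finset.mem_image.1 (e.symm l).2
    refine ⟨k, ?_⟩
    change e _ = l
    rw [← e.apply_symm_apply l]
    congr 1
    exact Subtype.ext hk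
  · intro l
    rw [← h2 (e.symm l)]
    refine Finset.sum_congr ?_ fun _ _ => rfl
    ext k
    simp only [Finset.mem_filter, Finset.mem_univ, true_and]
    constructor
    · intro h
      rw [← h, e.symm_apply_apply]
    · intro h
      change e _ = l
      rw [← e.apply_symm_apply l]
      congr 1
      exact Subtype.ext h

/-- **Hartshorne's conjecture for sums of forms.** Here `SF β n F` says that `F` is a sum of forms of
degree `n`, one for each block of variables, and `CH I i` is the Chow group of cycles of dimension
`i` with rational coefficients on the closed subscheme `I = 0` of the projective space. -/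
theorem result (K : Type u) [Field K] [IsAlgClosed K] (m n a : ℕ) [NeZero m] (ζ : K)
    (hζ : IsPrimitiveRoot ζ m) (hmn : m ∣ n) (hn : n = m * ringExpChar K ^ a) (hn2 : 2 ≤ n)
    (N s i j : ℕ) (hN : N = i + j + 2) (hj : 1 ≤ j) (hij : j < i)
    (β : Fin N → Fin s) (hβ : Function.Surjective β)
    (F : MvPolynomial (Fin N) K) (hF : SF β n F) (hsm : Smooth F) :
    (m * j < s → SectionMultiples F i Set.univ) ∧
    (j < s → ∀ z : (Fin s → ZMod m) → ℚ,
      (∀ x : Fin s → ZMod m, ∑ k, x k = 0 → ¬ Splits x (j + 1) →
        ∑ g, (z g : ℂ) * ZMod.stdAddChar (∑ k, x k * g k) = 0) →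
      SectionMultiples F i (Set.range fun α => ∑ g, z g • act hζ hmn hF i g α)) ∧
    (j < s → ∀ H : AddSubgroup (Fin s → ZMod m),
      (∀ x : Fin s → ZMod m, ∑ k, x k = 0 → (∀ h ∈ H, ∑ k, x k * h k = 0) →
        Splits x (j + 1)) →
      SectionMultiples F i {α | ∀ g ∈ H, act hζ hmn hF i g α = α}) := by
  have hinf : Infinite K := IsAlgClosed.instInfinite
  have hF0 : F ≠ 0 := by
    rintro rfl
    obtain ⟨l, hl⟩ := hsm (fun _ => 1) (fun h => one_ne_zero (congrFun h ⟨0, by omega⟩))
      (map_zero _)
    exact hl (by rw [map_zero, map_zero])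
  have hex : ∃ (r : ℕ) (c : Fin r → Fin N → K), IsSection F i c := by
    obtain ⟨c, h1, h2⟩ := exists_section (i := i) (r := j) (by omega) hF.hom hF0 (by omega)
    exact ⟨j, c, h1, by omega, h2⟩
  have key : j < s → ∀ z : (Fin s → ZMod m) → ℚ,
      (∀ x : Fin s → ZMod m, ∑ k, x k = 0 → ¬ Splits x (j + 1) →
        ∑ g, (z g : ℂ) * ZMod.stdAddChar (∑ k, x k * g k) = 0) →
      SectionMultiples F i (Set.range fun α => ∑ g, z g • act hζ hmn hF i g α) := by
    intro hjs z hz
    refine ⟨hex, fun r c hc => ?_⟩
    rintro _ ⟨α, rfl⟩
    exact hart_plus hζ hn hn2 hN hj hij hjs hβ hF hsm hc.1 hc.2.1 hc.2.2 z hz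
      (span_stable hζ.pow_eq_one hmn hF) α
  have key' : j < s → ∀ H : AddSubgroup (Fin s → ZMod m),
      (∀ x : Fin s → ZMod m, ∑ k, x k = 0 → (∀ h ∈ H, ∑ k, x k * h k = 0) →
        Splits x (j + 1)) →
      SectionMultiples F i {α | ∀ g ∈ H, act hζ hmn hF i g α = α} := by
    intro hjs H hH
    obtain ⟨h1, h2⟩ := key hjs (proj H) fun x hx hsp => by
      by_contra hcon
      apply hsp
      refine hH x hx fun h hh => ?_
      by_contra hne
      exact hcon (sum_proj_ch H hh hne)
    exact ⟨h1, fun r c hc α hα => h2 r c hc α ⟨α, sum_proj_smul H hα⟩⟩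
  refine ⟨fun hs => ?_, key, key'⟩
  have hjs : j < s := lt_of_le_of_lt (Nat.le_mul_of_pos_left j (NeZero.pos m)) hs
  obtain ⟨h1, h2⟩ := key' hjs ⊥ fun x hx _ => splits_of_card hs hx
  refine ⟨h1, fun r c hc α _ => h2 r c hc α fun g hg => ?_⟩
  rw [AddSubgroup.mem_bot] at hg
  rw [hg]
  exact blockAct_zero hζ.pow_eq_one _ i α

end Pool.Agent.Results.MP_4be043_ag.SumsOfForms
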